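import Mathlib

set_option autoImplicit false

universe u

namespace Pool.Agent.H78.RigidAlg

open CategoryTheory

/-- A finite-dimensional algebra `A` is symmetric if `A ≅ Hom_k(A, k)` as `A`-`A`-bimodules;
the bimodule structure of `Hom_k(A, k)` is `(a f b)(y) = f (b y a)`. -/
def IsSymmetricAlgebra (k A : Type u) [Field k] [Ring A] [Algebra k A] : Prop :=
  ∃ e : A ≃ₗ[k] Module.Dual k A, ∀ a x b y : A, e (a * x * b) y = e x (b * y * a)

/-! ### The algebra -/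

/-- The twelve-dimensional algebra `k ⊕ V ⊕ V* ⊕ k`, `V = ⟨x, r₁, r₂, l₁, l₂⟩`. -/
@[ext]
structure Alg (k : Type u) where
  (c x r1 r2 l1 l2 X R1 R2 L1 L2 s : k)

namespace Alg

variable {k : Type u} [Field k]

instance : Zero (Alg k) := ⟨⟨0, 0, 0, 0, 0, 0, 0, 0, 0, 0, 0, 0⟩⟩
instance : One (Alg k) := ⟨⟨1, 0, 0, 0, 0, 0, 0, 0, 0, 0, 0, 0⟩⟩
instance : Add (Alg k) := ⟨fun a b => ⟨a.c + b.c, a.x + b.x, a.r1 + b.r1, a.r2 + b.r2,
  a.l1 + b.l1, a.l2 + b.l2, a.X + b.X, a.R1 + b.R1, a.R2 + b.R2, a.L1 + b.L1, a.L2 + b.L2,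
  a.s + b.s⟩⟩
instance : Neg (Alg k) := ⟨fun a => ⟨-a.c, -a.x, -a.r1, -a.r2, -a.l1, -a.l2, -a.X, -a.R1,
  -a.R2, -a.L1, -a.L2, -a.s⟩⟩
instance : SMul k (Alg k) := ⟨fun t a => ⟨t * a.c, t * a.x, t * a.r1, t * a.r2,
  t * a.l1, t * a.l2, t * a.X, t * a.R1, t * a.R2, t * a.L1, t * a.L2, t * a.s⟩⟩
instance : Mul (Alg k) := ⟨fun a b =>
  { c := a.c * b.c
    x := a.c * b.x + a.x * b.c
    r1 := a.c * b.r1 + a.r1 * b.c
    r2 := a.c * b.r2 + a.r2 * b.c
    l1 := a.c * b.l1 + a.l1 * b.c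
    l2 := a.c * b.l2 + a.l2 * b.c
    X := a.c * b.X + a.X * b.c + (a.x * b.x + a.l1 * b.r1 + a.l2 * b.r2)
    R1 := a.c * b.R1 + a.R1 * b.c + (a.x * b.l1 + a.l1 * b.r1 + a.r1 * b.l1 + a.l2 * b.l1)
    R2 := a.c * b.R2 + a.R2 * b.c + (a.x * b.l2 + a.l2 * b.r2 + a.r2 * b.l2 + a.l1 * b.l2)
    L1 := a.c * b.L1 + a.L1 * b.c + (a.r1 * b.x + a.l2 * b.r2 + a.r1 * b.r1 + a.r1 * b.l2)
    L2 := a.c * b.L2 + a.L2 * b.c + (a.r2 * b.x + a.l1 * b.r1 + a.r2 * b.r2 + a.r2 * b.l1)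
    s := a.c * b.s + a.s * b.c + (a.x * b.X + a.r1 * b.R1 + a.r2 * b.R2 + a.l1 * b.L1
      + a.l2 * b.L2) + (a.X * b.x + a.R1 * b.r1 + a.R2 * b.r2 + a.L1 * b.l1 + a.L2 * b.l2) }⟩

section
variable (a b : Alg k) (t : k)
@[simp] lemma zero_c : (0 : Alg k).c = 0 := rfl
@[simp] lemma zero_x : (0 : Alg k).x = 0 := rfl
@[simp] lemma zero_r1 : (0 : Alg k).r1 = 0 := rfl
@[simp] lemma zero_r2 : (0 : Alg k).r2 = 0 := rfl
@[simp] lemma zero_l1 : (0 : Alg k).l1 = 0 := rfl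
@[simp] lemma zero_l2 : (0 : Alg k).l2 = 0 := rfl
@[simp] lemma zero_X : (0 : Alg k).X = 0 := rfl
@[simp] lemma zero_R1 : (0 : Alg k).R1 = 0 := rfl
@[simp] lemma zero_R2 : (0 : Alg k).R2 = 0 := rfl
@[simp] lemma zero_L1 : (0 : Alg k).L1 = 0 := rfl
@[simp] lemma zero_L2 : (0 : Alg k).L2 = 0 := rfl
@[simp] lemma zero_s : (0 : Alg k).s = 0 := rfl
@[simp] lemma one_c : (1 : Alg k).c = 1 := rfl
@[simp] lemma one_x : (1 : Alg k).x = 0 := rfl
@[simp] lemma one_r1 : (1 : Alg k).r1 = 0 := rfl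
@[simp] lemma one_r2 : (1 : Alg k).r2 = 0 := rfl
@[simp] lemma one_l1 : (1 : Alg k).l1 = 0 := rfl
@[simp] lemma one_l2 : (1 : Alg k).l2 = 0 := rfl
@[simp] lemma one_X : (1 : Alg k).X = 0 := rfl
@[simp] lemma one_R1 : (1 : Alg k).R1 = 0 := rfl
@[simp] lemma one_R2 : (1 : Alg k).R2 = 0 := rfl
@[simp] lemma one_L1 : (1 : Alg k).L1 = 0 := rfl
@[simp] lemma one_L2 : (1 : Alg k).L2 = 0 := rfl
@[simp] lemma one_s : (1 : Alg k).s = 0 := rfl
@[simp] lemma add_c : (a + b).c = a.c + b.c := rfl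
@[simp] lemma add_x : (a + b).x = a.x + b.x := rfl
@[simp] lemma add_r1 : (a + b).r1 = a.r1 + b.r1 := rfl
@[simp] lemma add_r2 : (a + b).r2 = a.r2 + b.r2 := rfl
@[simp] lemma add_l1 : (a + b).l1 = a.l1 + b.l1 := rfl
@[simp] lemma add_l2 : (a + b).l2 = a.l2 + b.l2 := rfl
@[simp] lemma add_X : (a + b).X = a.X + b.X := rfl
@[simp] lemma add_R1 : (a + b).R1 = a.R1 + b.R1 := rfl
@[simp] lemma add_R2 : (a + b).R2 = a.R2 + b.R2 := rfl
@[simp] lemma add_L1 : (a + b).L1 = a.L1 + b.L1 := rfl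
@[simp] lemma add_L2 : (a + b).L2 = a.L2 + b.L2 := rfl
@[simp] lemma add_s : (a + b).s = a.s + b.s := rfl
@[simp] lemma neg_c : (-a).c = -a.c := rfl
@[simp] lemma neg_x : (-a).x = -a.x := rfl
@[simp] lemma neg_r1 : (-a).r1 = -a.r1 := rfl
@[simp] lemma neg_r2 : (-a).r2 = -a.r2 := rfl
@[simp] lemma neg_l1 : (-a).l1 = -a.l1 := rfl
@[simp] lemma neg_l2 : (-a).l2 = -a.l2 := rfl
@[simp] lemma neg_X : (-a).X = -a.X := rfl
@[simp] lemma neg_R1 : (-a).R1 = -a.R1 := rfl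
@[simp] lemma neg_R2 : (-a).R2 = -a.R2 := rfl
@[simp] lemma neg_L1 : (-a).L1 = -a.L1 := rfl
@[simp] lemma neg_L2 : (-a).L2 = -a.L2 := rfl
@[simp] lemma neg_s : (-a).s = -a.s := rfl
@[simp] lemma smul_c : (t • a).c = t * a.c := rfl
@[simp] lemma smul_x : (t • a).x = t * a.x := rfl
@[simp] lemma smul_r1 : (t • a).r1 = t * a.r1 := rfl
@[simp] lemma smul_r2 : (t • a).r2 = t * a.r2 := rfl
@[simp] lemma smul_l1 : (t • a).l1 = t * a.l1 := rfl
@[simp] lemma smul_l2 : (t • a).l2 = t * a.l2 := rfl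
@[simp] lemma smul_X : (t • a).X = t * a.X := rfl
@[simp] lemma smul_R1 : (t • a).R1 = t * a.R1 := rfl
@[simp] lemma smul_R2 : (t • a).R2 = t * a.R2 := rfl
@[simp] lemma smul_L1 : (t • a).L1 = t * a.L1 := rfl
@[simp] lemma smul_L2 : (t • a).L2 = t * a.L2 := rfl
@[simp] lemma smul_s : (t • a).s = t * a.s := rfl
@[simp] lemma mul_c : (a * b).c = a.c * b.c := rfl
@[simp] lemma mul_x : (a * b).x = a.c * b.x + a.x * b.c := rfl
@[simp] lemma mul_r1 : (a * b).r1 = a.c * b.r1 + a.r1 * b.c := rfl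
@[simp] lemma mul_r2 : (a * b).r2 = a.c * b.r2 + a.r2 * b.c := rfl
@[simp] lemma mul_l1 : (a * b).l1 = a.c * b.l1 + a.l1 * b.c := rfl
@[simp] lemma mul_l2 : (a * b).l2 = a.c * b.l2 + a.l2 * b.c := rfl
@[simp] lemma mul_X : (a * b).X = a.c * b.X + a.X * b.c +
    (a.x * b.x + a.l1 * b.r1 + a.l2 * b.r2) := rfl
@[simp] lemma mul_R1 : (a * b).R1 = a.c * b.R1 + a.R1 * b.c +
    (a.x * b.l1 + a.l1 * b.r1 + a.r1 * b.l1 + a.l2 * b.l1) := rfl
@[simp] lemma mul_R2 : (a * b).R2 = a.c * b.R2 + a.R2 * b.c +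
    (a.x * b.l2 + a.l2 * b.r2 + a.r2 * b.l2 + a.l1 * b.l2) := rfl
@[simp] lemma mul_L1 : (a * b).L1 = a.c * b.L1 + a.L1 * b.c +
    (a.r1 * b.x + a.l2 * b.r2 + a.r1 * b.r1 + a.r1 * b.l2) := rfl
@[simp] lemma mul_L2 : (a * b).L2 = a.c * b.L2 + a.L2 * b.c +
    (a.r2 * b.x + a.l1 * b.r1 + a.r2 * b.r2 + a.r2 * b.l1) := rfl
@[simp] lemma mul_s : (a * b).s = a.c * b.s + a.s * b.c +
    (a.x * b.X + a.r1 * b.R1 + a.r2 * b.R2 + a.l1 * b.L1 + a.l2 * b.L2) +
    (a.X * b.x + a.R1 * b.r1 + a.R2 * b.r2 + a.L1 * b.l1 + a.L2 * b.l2) := rfl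
end

instance : Ring (Alg k) where
  add_assoc a b c := by ext <;> simp only [add_c, add_x, add_r1, add_r2, add_l1, add_l2,
    add_X, add_R1, add_R2, add_L1, add_L2, add_s] <;> ring
  zero_add a := by ext <;> simp
  add_zero a := by ext <;> simp
  add_comm a b := by ext <;> simp only [add_c, add_x, add_r1, add_r2, add_l1, add_l2,
    add_X, add_R1, add_R2, add_L1, add_L2, add_s] <;> ring
  nsmul := nsmulRec
  zsmul := zsmulRec
  neg_add_cancel a := by ext <;> simp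
  mul_assoc a b c := by
    ext <;> simp only [mul_c, mul_x, mul_r1, mul_r2, mul_l1, mul_l2, mul_X, mul_R1, mul_R2,
      mul_L1, mul_L2, mul_s] <;> ring
  one_mul a := by ext <;> simp
  mul_one a := by ext <;> simp
  zero_mul a := by ext <;> simp
  mul_zero a := by ext <;> simp
  left_distrib a b c := by
    ext <;> simp only [mul_c, mul_x, mul_r1, mul_r2, mul_l1, mul_l2, mul_X, mul_R1, mul_R2,
      mul_L1, mul_L2, mul_s, add_c, add_x, add_r1, add_r2, add_l1, add_l2,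
      add_X, add_R1, add_R2, add_L1, add_L2, add_s] <;> ring
  right_distrib a b c := by
    ext <;> simp only [mul_c, mul_x, mul_r1, mul_r2, mul_l1, mul_l2, mul_X, mul_R1, mul_R2,
      mul_L1, mul_L2, mul_s, add_c, add_x, add_r1, add_r2, add_l1, add_l2,
      add_X, add_R1, add_R2, add_L1, add_L2, add_s] <;> ring

instance : Module k (Alg k) where
  one_smul a := by ext <;> simp
  mul_smul s t a := by ext <;> simp [mul_assoc]
  smul_zero t := by ext <;> simp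
  smul_add t a b := by ext <;> simp [mul_add]
  add_smul s t a := by ext <;> simp [add_mul]
  zero_smul a := by ext <;> simp

instance : Algebra k (Alg k) := Algebra.ofModule
  (fun t a b => by ext <;> simp <;> ring)
  (fun t a b => by ext <;> simp <;> ring)

/-! ### Finite dimension, symmetry, locality -/

/-- Coordinates. -/
def coord : Alg k ≃ₗ[k] (Fin 12 → k) where
  toFun a := ![a.c, a.x, a.r1, a.r2, a.l1, a.l2, a.X, a.R1, a.R2, a.L1, a.L2, a.s]
  invFun f := ⟨f 0, f 1, f 2, f 3, f 4, f 5, f 6, f 7, f 8, f 9, f 10, f 11⟩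
  left_inv a := by ext <;> rfl
  right_inv f := by ext i; fin_cases i <;> rfl
  map_add' a b := by ext i; fin_cases i <;> rfl
  map_smul' t a := by ext i; fin_cases i <;> rfl

instance : Module.Finite k (Alg k) := Module.Finite.equiv (coord (k := k)).symm

/-- The symmetrising form is `(a, b) ↦ (a * b).s`. -/
def form : Alg k →ₗ[k] Module.Dual k (Alg k) :=
  LinearMap.mk₂ k (fun a b => (a * b).s)
    (fun a b c => by simp only [mul_s, add_c, add_x, add_r1, add_r2, add_l1, add_l2,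
      add_X, add_R1, add_R2, add_L1, add_L2, add_s]; ring)
    (fun t a b => by simp only [mul_s, smul_c, smul_x, smul_r1, smul_r2, smul_l1, smul_l2,
      smul_X, smul_R1, smul_R2, smul_L1, smul_L2, smul_s, smul_eq_mul]; ring)
    (fun a b c => by simp only [mul_s, add_c, add_x, add_r1, add_r2, add_l1, add_l2,
      add_X, add_R1, add_R2, add_L1, add_L2, add_s]; ring)
    (fun t a b => by simp only [mul_s, smul_c, smul_x, smul_r1, smul_r2, smul_l1, smul_l2,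
      smul_X, smul_R1, smul_R2, smul_L1, smul_L2, smul_s, smul_eq_mul]; ring)

lemma form_apply (a b : Alg k) : form a b = (a * b).s := rfl

lemma form_symm (a b : Alg k) : (a * b).s = (b * a).s := by
  simp only [mul_s]; ring

lemma nondeg (a : Alg k) (h : ∀ b : Alg k, (a * b).s = 0) : a = 0 := by
  ext
  · simpa using h ⟨0, 0, 0, 0, 0, 0, 0, 0, 0, 0, 0, 1⟩
  · simpa using h ⟨0, 0, 0, 0, 0, 0, 1, 0, 0, 0, 0, 0⟩
  · simpa using h ⟨0, 0, 0, 0, 0, 0, 0, 1, 0, 0, 0, 0⟩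
  · simpa using h ⟨0, 0, 0, 0, 0, 0, 0, 0, 1, 0, 0, 0⟩
  · simpa using h ⟨0, 0, 0, 0, 0, 0, 0, 0, 0, 1, 0, 0⟩
  · simpa using h ⟨0, 0, 0, 0, 0, 0, 0, 0, 0, 0, 1, 0⟩
  · simpa using h ⟨0, 1, 0, 0, 0, 0, 0, 0, 0, 0, 0, 0⟩
  · simpa using h ⟨0, 0, 1, 0, 0, 0, 0, 0, 0, 0, 0, 0⟩
  · simpa using h ⟨0, 0, 0, 1, 0, 0, 0, 0, 0, 0, 0, 0⟩
  · simpa using h ⟨0, 0, 0, 0, 1, 0, 0, 0, 0, 0, 0, 0⟩
  · simpa using h ⟨0, 0, 0, 0, 0, 1, 0, 0, 0, 0, 0, 0⟩
  · simpa using h ⟨1, 0, 0, 0, 0, 0, 0, 0, 0, 0, 0, 0⟩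

lemma form_injective : Function.Injective (form (k := k)) := by
  rw [← LinearMap.ker_eq_bot, LinearMap.ker_eq_bot']
  intro a ha
  apply nondeg
  intro b
  have := LinearMap.congr_fun ha b
  simpa [form_apply] using this

/-- The isomorphism `A ≅ Hom_k(A, k)`. -/
noncomputable def formEquiv : Alg k ≃ₗ[k] Module.Dual k (Alg k) :=
  LinearEquiv.ofInjectiveOfFinrankEq form form_injective Subspace.dual_finrank_eq.symm

lemma formEquiv_apply (a b : Alg k) : formEquiv a b = (a * b).s := rfl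

lemma isSymmetric : IsSymmetricAlgebra k (Alg k) := by
  refine ⟨formEquiv, fun a x b y => ?_⟩
  rw [formEquiv_apply, formEquiv_apply]
  rw [show a * x * b * y = a * (x * (b * y)) by simp only [mul_assoc], form_symm]
  simp only [mul_assoc]

lemma nil4 (a : Alg k) (h : a.c = 0) : a * a * a * a = 0 := by
  ext <;> simp [h]

lemma isUnit_of_c_ne_zero (a : Alg k) (h : a.c ≠ 0) : IsUnit a := by
  let n : Alg k := a - algebraMap k (Alg k) a.c
  have hn : n * n * n * n = 0 := by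
    apply nil4
    have : (algebraMap k (Alg k) a.c).c = a.c := by
      rw [Algebra.algebraMap_eq_smul_one]; simp
    have h2 : n = a + -(algebraMap k (Alg k) a.c) := sub_eq_add_neg _ _
    rw [h2, add_c, neg_c, this]; ring
  have hnil : IsNilpotent n := ⟨4, by rw [show n ^ 4 = n * n * n * n by
    simp only [pow_succ, pow_zero, one_mul]]; exact hn⟩
  have hu : IsUnit (algebraMap k (Alg k) a.c) := (IsUnit.mk0 _ h).map _
  have : a = algebraMap k (Alg k) a.c + n := by simp [n]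
  rw [this]
  have hcomm : Commute (algebraMap k (Alg k) a.c) n := Algebra.commutes _ _
  exact hnil.isUnit_add_left_of_commute hu hcomm.symm

lemma c_ne_zero_of_isUnit (a : Alg k) (h : IsUnit a) : a.c ≠ 0 := by
  obtain ⟨b, hb⟩ := h.exists_right_inv
  intro h0
  have := congrArg Alg.c hb
  simp [h0] at this

instance : Nontrivial (Alg k) := ⟨⟨0, 1, fun h => by
  have := congrArg Alg.c h
  simp at this⟩⟩

instance isLocal : IsLocalRing (Alg k) := by
  constructor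
  intro a b hab
  by_cases h : a.c = 0
  · right
    apply isUnit_of_c_ne_zero
    have := congrArg Alg.c hab
    simp [h] at this
    rw [this]; exact one_ne_zero
  · left; exact isUnit_of_c_ne_zero a h

/-! ### The module -/

/-- the element `x` -/
def ex : Alg k := ⟨0, 1, 0, 0, 0, 0, 0, 0, 0, 0, 0, 0⟩

/-- the element `r₁` -/
def er1 : Alg k := ⟨0, 0, 1, 0, 0, 0, 0, 0, 0, 0, 0, 0⟩

/-- the element `r₂` -/
def er2 : Alg k := ⟨0, 0, 0, 1, 0, 0, 0, 0, 0, 0, 0, 0⟩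

/-- The right ideal `xA`, in coordinates. -/
def xA : Submodule (Alg k)ᵐᵒᵖ (Alg k) where
  carrier := {y | y.c = 0 ∧ y.r1 = 0 ∧ y.r2 = 0 ∧ y.l1 = 0 ∧ y.l2 = 0 ∧ y.L1 = 0 ∧ y.L2 = 0}
  add_mem' := by
    rintro a b ⟨h1, h2, h3, h4, h5, h6, h7⟩ ⟨h1', h2', h3', h4', h5', h6', h7'⟩
    simp [*]
  zero_mem' := by simp
  smul_mem' := by
    rintro r a ⟨h1, h2, h3, h4, h5, h6, h7⟩
    obtain ⟨r, rfl⟩ := MulOpposite.op_surjective r
    simp [*]

lemma mem_xA (y : Alg k) : y ∈ (xA : Submodule (Alg k)ᵐᵒᵖ (Alg k)) ↔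
    y.c = 0 ∧ y.r1 = 0 ∧ y.r2 = 0 ∧ y.l1 = 0 ∧ y.l2 = 0 ∧ y.L1 = 0 ∧ y.L2 = 0 := Iff.rfl

lemma mem_xA_iff (y : Alg k) : y ∈ (xA : Submodule (Alg k)ᵐᵒᵖ (Alg k)) ↔ ∃ z, y = ex * z := by
  rw [mem_xA]
  constructor
  · rintro ⟨h1, h2, h3, h4, h5, h6, h7⟩
    refine ⟨⟨y.x, y.X, 0, 0, y.R1, y.R2, y.s, 0, 0, 0, 0, 0⟩, ?_⟩
    ext <;> simp [ex, *]
  · rintro ⟨z, rfl⟩
    simp [ex]

lemma ex_mem : (ex : Alg k) ∈ (xA : Submodule (Alg k)ᵐᵒᵖ (Alg k)) := by simp [mem_xA, ex]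

lemma ex_er1 : (ex * er1 : Alg k) = 0 := by ext <;> simp [ex, er1]
lemma ex_er2 : (ex * er2 : Alg k) = 0 := by ext <;> simp [ex, er2]

/-- The key computation: `a r₁, a r₂ ∈ xA` imply `a ∈ Ax + xA`. -/
lemma key (a : Alg k) (h1 : a * er1 ∈ (xA : Submodule (Alg k)ᵐᵒᵖ (Alg k)))
    (h2 : a * er2 ∈ (xA : Submodule (Alg k)ᵐᵒᵖ (Alg k))) :
    ∃ b : Alg k, a - b * ex ∈ (xA : Submodule (Alg k)ᵐᵒᵖ (Alg k)) := by
  rw [mem_xA] at h1 h2
  simp [er1, er2] at h1 h2
  obtain ⟨h10, h11, h12⟩ := h1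
  obtain ⟨h20, h21, h22⟩ := h2
  refine ⟨⟨a.x, 0, a.L1, a.L2, 0, 0, 0, 0, 0, 0, 0, 0⟩, ?_⟩
  rw [mem_xA, sub_eq_add_neg]
  simp [ex, *]

/-- The right module `M = A / xA`. -/
abbrev M (k : Type u) [Field k] : Type u := Alg k ⧸ (xA : Submodule (Alg k)ᵐᵒᵖ (Alg k))

lemma extend (f : (xA : Submodule (Alg k)ᵐᵒᵖ (Alg k)) →ₗ[(Alg k)ᵐᵒᵖ] M k) :
    ∃ g : Alg k →ₗ[(Alg k)ᵐᵒᵖ] M k, ∀ y : (xA : Submodule (Alg k)ᵐᵒᵖ (Alg k)), g y = f y := by
  obtain ⟨a, ha⟩ := Submodule.mkQ_surjective _ (f ⟨ex, ex_mem⟩)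
  have hf : ∀ z : Alg k, ∀ hz : ex * z ∈ (xA : Submodule (Alg k)ᵐᵒᵖ (Alg k)),
      f ⟨ex * z, hz⟩ = Submodule.mkQ _ (a * z) := by
    intro z hz
    have e1 : (⟨ex * z, hz⟩ : (xA : Submodule (Alg k)ᵐᵒᵖ (Alg k))) =
        (MulOpposite.op z) • ⟨ex, ex_mem⟩ := rfl
    rw [e1, map_smul, ← ha, ← map_smul]
    rfl
  have m1 : a * er1 ∈ (xA : Submodule (Alg k)ᵐᵒᵖ (Alg k)) := by
    have h0 : ex * er1 ∈ (xA : Submodule (Alg k)ᵐᵒᵖ (Alg k)) := by
      rw [ex_er1]; exact Submodule.zero_mem _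
    have := hf er1 h0
    have e : (⟨ex * er1, h0⟩ : (xA : Submodule (Alg k)ᵐᵒᵖ (Alg k))) = 0 :=
      Subtype.ext ex_er1
    rw [e, map_zero] at this
    exact (Submodule.Quotient.mk_eq_zero _).mp this.symm
  have m2 : a * er2 ∈ (xA : Submodule (Alg k)ᵐᵒᵖ (Alg k)) := by
    have h0 : ex * er2 ∈ (xA : Submodule (Alg k)ᵐᵒᵖ (Alg k)) := by
      rw [ex_er2]; exact Submodule.zero_mem _
    have := hf er2 h0
    have e : (⟨ex * er2, h0⟩ : (xA : Submodule (Alg k)ᵐᵒᵖ (Alg k))) = 0 :=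
      Subtype.ext ex_er2
    rw [e, map_zero] at this
    exact (Submodule.Quotient.mk_eq_zero _).mp this.symm
  obtain ⟨b, hb⟩ := key a m1 m2
  let L : Alg k →ₗ[(Alg k)ᵐᵒᵖ] Alg k :=
    { toFun := fun y => b * y
      map_add' := fun y z => mul_add b y z
      map_smul' := fun r y => by
        obtain ⟨r, rfl⟩ := MulOpposite.op_surjective r
        simp [mul_assoc] }
  refine ⟨(Submodule.mkQ _).comp L, ?_⟩
  rintro ⟨y, hy⟩
  obtain ⟨z, rfl⟩ := (mem_xA_iff y).mp hy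
  rw [hf z hy]
  change Submodule.mkQ _ (b * (ex * z)) = _
  rw [← sub_eq_zero, ← map_sub]
  apply (Submodule.Quotient.mk_eq_zero _).mpr
  have : b * (ex * z) - a * z = (MulOpposite.op (-z)) • (a - b * ex) := by
    simp [sub_mul, mul_assoc]
  rw [this]
  exact Submodule.smul_mem _ _ hb

/-- The regular right module is free of rank one. -/
def regEquiv : (Alg k)ᵐᵒᵖ ≃ₗ[(Alg k)ᵐᵒᵖ] Alg k where
  toFun a := a.unop
  invFun a := MulOpposite.op a
  map_add' _ _ := rfl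
  map_smul' _ _ := rfl
  left_inv _ := rfl
  right_inv _ := rfl

instance : Module.Projective (Alg k)ᵐᵒᵖ (Alg k) := Module.Projective.of_equiv regEquiv

lemma not_projective : ¬ Module.Projective (Alg k)ᵐᵒᵖ (M k) := by
  intro h
  obtain ⟨σ, hσ⟩ := Module.projective_lifting_property
    (Submodule.mkQ (xA : Submodule (Alg k)ᵐᵒᵖ (Alg k))) LinearMap.id
    (Submodule.mkQ_surjective _)
  let π := Submodule.mkQ (xA : Submodule (Alg k)ᵐᵒᵖ (Alg k))
  have h1 : σ (π 1) * ex = 0 := by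
    have e : π ex = 0 := (Submodule.Quotient.mk_eq_zero _).mpr ex_mem
    have e2 : π ex = (MulOpposite.op (ex : Alg k)) • π 1 := by
      rw [← map_smul]; simp
    have e3 : σ (π ex) = (MulOpposite.op (ex : Alg k)) • σ (π 1) := by
      rw [e2, map_smul]
    rw [e, map_zero] at e3
    simpa using e3.symm
  have h2 : π (σ (π 1)) = π 1 := LinearMap.congr_fun hσ (π 1)
  have h3 : σ (π 1) - 1 ∈ (xA : Submodule (Alg k)ᵐᵒᵖ (Alg k)) := by
    apply (Submodule.Quotient.mk_eq_zero _).mp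
    change π (σ (π 1) - 1) = 0
    rw [map_sub]
    exact sub_eq_zero.mpr h2
  rw [mem_xA, sub_eq_add_neg] at h3
  have h4 := h3.1
  have h5 := congrArg Alg.x h1
  simp [ex] at h4 h5
  rw [h5] at h4
  simp at h4

end Alg

/-! ### Ext -/

lemma ext_subsingleton {R : Type u} [Ring R] {P N : Type u} [AddCommGroup P] [Module R P]
    [Module.Projective R P] [AddCommGroup N] [Module R N] (K : Submodule R P)
    (hext : ∀ f : K →ₗ[R] N, ∃ g : P →ₗ[R] N, ∀ y : K, g y = f y) :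
    Subsingleton (Abelian.Ext (ModuleCat.of R (P ⧸ K)) (ModuleCat.of R N) 1) := by
  let S : ShortComplex (ModuleCat.{u} R) :=
    ModuleCat.shortComplexOfCompEqZero K.subtype K.mkQ (by ext y; simp)
  have hS : S.ShortExact := by
    apply ModuleCat.shortComplex_shortExact
    · exact LinearMap.exact_subtype_mkQ K
    · exact K.injective_subtype
    · exact K.mkQ_surjective
  have hP : Projective S.X₂ := by
    change Projective (ModuleCat.of R P)
    infer_instance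
  constructor
  suffices h : ∀ e : Abelian.Ext (ModuleCat.of R (P ⧸ K)) (ModuleCat.of R N) 1, e = 0 by
    intro a b; rw [h a, h b]
  intro e
  obtain ⟨e1, rfl⟩ := Abelian.Ext.contravariant_sequence_exact₃ hS (ModuleCat.of R N) e
    (Abelian.Ext.eq_zero_of_projective _) (add_zero 1)
  obtain ⟨φ, rfl⟩ := Abelian.Ext.mk₀_bijective _ _ |>.2 e1
  obtain ⟨g, hg⟩ := hext φ.hom
  have hφ : φ = S.f ≫ ModuleCat.ofHom g := by
    ext y
    exact (hg y).symm
  rw [hφ, ← Abelian.Ext.mk₀_comp_mk₀]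
  rw [← Abelian.Ext.comp_assoc_of_third_deg_zero]
  rw [hS.extClass_comp]
  simp

/-! ### Self-injectivity -/

/-- A symmetric algebra is injective as a right module over itself. -/
lemma injective_of_symmetric {k A : Type u} [Field k] [Ring A] [Algebra k A]
    (h : IsSymmetricAlgebra k A) : Module.Injective Aᵐᵒᵖ A := by
  obtain ⟨e, he⟩ := h
  -- the functional `y ↦ e 1 y`
  have hmul : ∀ a y : A, e a y = e 1 (y * a) := by
    intro a y
    have := he a 1 1 y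
    simpa using this
  have hmul' : ∀ a y : A, e a y = e 1 (a * y) := by
    intro a y
    have := he 1 1 a y
    simpa using this
  have hnd : ∀ a : A, (∀ z : A, e 1 (a * z) = 0) → a = 0 := by
    intro a ha
    apply e.injective
    rw [map_zero]
    ext z
    rw [hmul', ha z]; rfl
  apply Module.Baer.injective
  intro I g
  -- `I` as a `k`-subspace of `A`
  let V : Submodule k A :=
    { carrier := {y | MulOpposite.op y ∈ I}
      add_mem' := fun {a b} ha hb => I.add_mem ha hb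
      zero_mem' := I.zero_mem
      smul_mem' := fun t y hy => by
        have h1 : MulOpposite.op (t • y) =
            MulOpposite.op (algebraMap k A t) * MulOpposite.op y := by
          rw [← MulOpposite.op_mul, Algebra.smul_def, Algebra.commutes]
        change MulOpposite.op (t • y) ∈ I
        rw [h1]
        exact I.mul_mem_left _ hy }
  have memV : ∀ y, y ∈ V ↔ MulOpposite.op y ∈ I := fun y => Iff.rfl
  let φ : V →ₗ[k] k :=
    { toFun := fun y => e 1 (g ⟨MulOpposite.op (y : A), y.2⟩)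
      map_add' := fun y z => by
        have : (⟨MulOpposite.op ((y + z : V) : A), (y + z).2⟩ : I) =
            ⟨MulOpposite.op (y : A), y.2⟩ + ⟨MulOpposite.op (z : A), z.2⟩ := rfl
        rw [this, map_add, map_add]
      map_smul' := fun t y => by
        have h1 : MulOpposite.op ((t • y : V) : A) =
            MulOpposite.op (algebraMap k A t) * MulOpposite.op (y : A) := by
          rw [← MulOpposite.op_mul, Submodule.coe_smul, Algebra.smul_def, Algebra.commutes]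
        have h2 : (⟨MulOpposite.op ((t • y : V) : A), (t • y).2⟩ : I) =
            (MulOpposite.op (algebraMap k A t)) • (⟨MulOpposite.op (y : A), y.2⟩ : I) :=
          Subtype.ext h1
        rw [h2, map_smul]
        have h3 : (MulOpposite.op (algebraMap k A t)) • g ⟨MulOpposite.op (y : A), y.2⟩ =
            t • g ⟨MulOpposite.op (y : A), y.2⟩ := by
          rw [Algebra.smul_def, Algebra.commutes]; rfl
        rw [h3, map_smul]; rfl }
  obtain ⟨ψ, hψ⟩ := LinearMap.exists_extend φ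
  let a : A := e.symm ψ
  have ha : ∀ y : A, e 1 (a * y) = ψ y := by
    intro y
    rw [← hmul']
    simp [a]
  refine ⟨{ toFun := fun y => a * y.unop
            map_add' := fun y z => by simp [mul_add]
            map_smul' := fun r y => by simp [mul_assoc] }, ?_⟩
  intro y hy
  change a * y.unop = g ⟨y, hy⟩
  rw [← sub_eq_zero]
  apply hnd
  intro z
  rw [sub_mul, map_sub, mul_assoc, ha, sub_eq_zero]
  have hz : MulOpposite.op (y.unop * z) ∈ I := by
    rw [MulOpposite.op_mul, MulOpposite.op_unop]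
    exact I.mul_mem_left _ hy
  have h1 : ψ (y.unop * z) = φ ⟨y.unop * z, hz⟩ := by
    rw [← hψ]; rfl
  rw [h1]
  change e 1 (g ⟨MulOpposite.op (y.unop * z), hz⟩) = _
  have h2 : (⟨MulOpposite.op (y.unop * z), hz⟩ : I) = (MulOpposite.op z) • (⟨y, hy⟩ : I) :=
    Subtype.ext rfl
  rw [h2, map_smul]
  rfl

/-- Main statement, with the symmetry condition written out. -/
theorem main (k : Type u) [Field k] :
    ∃ (A : Type u) (_ : Ring A) (_ : Algebra k A),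
      Module.Finite k A ∧ IsLocalRing A ∧
      (∃ e : A ≃ₗ[k] Module.Dual k A, ∀ a x b y : A, e (a * x * b) y = e x (b * y * a)) ∧
      Module.Injective Aᵐᵒᵖ A ∧
      ∃ M : ModuleCat.{u} Aᵐᵒᵖ,
        Module.Finite Aᵐᵒᵖ M ∧ ¬ Module.Projective Aᵐᵒᵖ M ∧
        Subsingleton (Abelian.Ext M M 1) := by
  refine ⟨Alg k, inferInstance, inferInstance, inferInstance, Alg.isLocal, Alg.isSymmetric,
    injective_of_symmetric (k := k) Alg.isSymmetric,
    ModuleCat.of (Alg k)ᵐᵒᵖ (Alg.M k), ?_, Alg.not_projective, ?_⟩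
  · have : Module.Finite (Alg k)ᵐᵒᵖ (Alg k) := Module.Finite.equiv Alg.regEquiv
    exact Module.Finite.of_surjective
      (Submodule.mkQ (Alg.xA : Submodule (Alg k)ᵐᵒᵖ (Alg k))) (Submodule.mkQ_surjective _)
  · exact ext_subsingleton _ Alg.extend

end Pool.Agent.H78.RigidAlg
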